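import Pool.Agent.H.MP_a1f11a_an.A

namespace Pool.Agent.H.MP_a1f11a_an
open Set Filter Topology

theorem face0 {x0 y0 x1 y1 x2 y2 s t : ℝ} (h0 : x0 * s + y0 * t ≤ 1) (h1 : x1 * s + y1 * t = 1)
    (h2 : x2 * s + y2 * t ≤ 1) (px py : ℝ) :
    (px * s + py * t) * (x0 * y1 - y0 * x1) ≤ px * (y1 - y0) + py * (x0 - x1) ∨
    (px * s + py * t) * (x1 * y2 - y1 * x2) ≤ px * (y2 - y1) + py * (x1 - x2) := by
  rcases le_total 0 (px * y1 - py * x1) with w | w
  · left
    have := mul_le_mul_of_nonneg_left h0 w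
    have e : (px * s + py * t) * (x0 * y1 - y0 * x1) = (px * y1 - py * x1) * (x0 * s + y0 * t) +
      (x0 * py - y0 * px) * (x1 * s + y1 * t) := by ring
    rw [e, h1]; linarith
  · right
    have := mul_le_mul_of_nonneg_left h2 (neg_nonneg.2 w)
    have e : (px * s + py * t) * (x1 * y2 - y1 * x2) = (px * y2 - py * x2) * (x1 * s + y1 * t) +
      -(px * y1 - py * x1) * (x2 * s + y2 * t) := by ring
    rw [e, h1]; linarith

def f (k : ℕ) (z : ℝ × ℝ) : ℝ := nx k * z.1 + ny k * z.2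

theorem nx80 (k : ℕ) : nx (k + 1 + 79) = nx k := by
  unfold nx; rw [show k + 1 + 79 = k + 80 by ring, Nat.add_mod_right]
theorem ny80 (k : ℕ) : ny (k + 1 + 79) = ny k := by
  unfold ny; rw [show k + 1 + 79 = k + 80 by ring, Nat.add_mod_right]

theorem face {z : ℝ × ℝ} (hz : ∀ k, f k z ≤ 1) {k : ℕ} (hk : f k z = 1) (px py : ℝ) :
    (px * z.1 + py * z.2) * vd k ≤ px * va k + py * vb k ∨
    (px * z.1 + py * z.2) * vd (k + 1) ≤ px * va (k + 1) + py * vb (k + 1) := by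
  have := face0 (hz (k + 79)) hk (hz (k + 1)) px py
  simp only [va, vb, vd, nx80, ny80]
  push_cast
  exact this

theorem cor_use {px py c a b d a' b' d' : ℤ} (h : cor px py c a b d a' b' d' = true) (hd : 0 < d)
    (hd' : 0 < d') {u v : ℝ} (hu : u * d ≤ px * a + py * b)
    (hv : -v * d' ≤ -px * a' + -py * b') : 1000 * (u - v) ≤ c := by
  simp only [cor, decide_eq_true_eq] at h
  have h' : (1000 : ℝ) * ((px * a + py * b) * d' - (px * a' + py * b') * d) ≤ c * (d * d') := by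
    exact_mod_cast h
  have e : (0 : ℝ) < d := by exact_mod_cast hd
  have e' : (0 : ℝ) < d' := by exact_mod_cast hd'
  have h1 := mul_le_mul_of_nonneg_right hu e'.le
  have h2 := mul_le_mul_of_nonneg_right hv e.le
  refine le_of_mul_le_mul_right ?_ (mul_pos e e')
  nlinarith

theorem key {z w : ℝ × ℝ} (hz : ∀ k, f k z ≤ 1) (hw : ∀ k, f k w ≤ 1) {k l : ℕ} (hk : k < 80)
    (hl : l < 80) (h1 : f k z = 1) (h2 : f l w = 1) (h3 : ∀ m, f m (z - w) ≤ 1224 / 1000) :
    f k (z - w) - f l (z - w) ≤ 1495 / 1000 := by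
  obtain ⟨m, j, h⟩ := all_ok k l hk hl
  simp only [ok, ok4, Bool.and_eq_true] at h
  obtain ⟨⟨⟨c1, c2⟩, c3⟩, c4⟩ := h
  set px := 10 * (nx k - nx l) - j * nx m with hpx
  set py := 10 * (ny k - ny l) - j * ny m with hpy
  have a1 := face hz h1 px py
  have a2 := face hw h2 (-px) (-py)
  rw [show -(px : ℝ) * w.1 + -py * w.2 = -(px * w.1 + py * w.2) by ring] at a2
  have b : 1000 * ((px * z.1 + py * z.2) - (px * w.1 + py * w.2)) ≤
      ((14950 - 1224 * j : ℤ) : ℝ) := by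
    have p1 := vd_pos k (by omega)
    have p2 := vd_pos (k + 1) (by omega)
    have p3 := vd_pos l (by omega)
    have p4 := vd_pos (l + 1) (by omega)
    rcases a1 with a1 | a1 <;> rcases a2 with a2 | a2
    · exact cor_use c1 p1 p3 a1 a2
    · exact cor_use c2 p1 p4 a1 a2
    · exact cor_use c3 p2 p3 a1 a2
    · exact cor_use c4 p2 p4 a1 a2
  have b2 := mul_le_mul_of_nonneg_left (h3 m) (Nat.cast_nonneg (α := ℝ) j)
  simp only [f, Prod.fst_sub, Prod.snd_sub] at b2 ⊢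
  rw [hpx, hpy] at b
  push_cast at b
  linarith

noncomputable def L : (ℝ × ℝ) →ₗ[ℝ] (Fin 80 → ℝ) where
  toFun z k := f k z
  map_add' z w := by ext k; simp [f]; ring
  map_smul' c z := by ext k; simp [f]; ring

abbrev X : Type := LinearMap.range L

theorem L_inj : Function.Injective L := by
  rw [← LinearMap.ker_eq_bot, LinearMap.ker_eq_bot']
  intro z hz
  have h0 : f 0 z = 0 := congrFun hz 0
  have h1 : f 79 z = 0 := congrFun hz 79
  have hd : (0 : ℝ) < vd 0 := by exact_mod_cast vd_pos 0 (by norm_num)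
  simp only [vd, zero_add] at hd
  push_cast at hd
  simp only [f] at h0 h1
  ext
  · refine mul_left_cancel₀ hd.ne' ?_
    simp only [Prod.fst_zero]
    linear_combination (ny 0 : ℝ) * h1 - (ny 79 : ℝ) * h0
  · refine mul_left_cancel₀ hd.ne' ?_
    simp only [Prod.snd_zero]
    linear_combination (nx 79 : ℝ) * h0 - (nx 0 : ℝ) * h1

theorem finrank_X : Module.finrank ℝ X = 2 := by
  rw [LinearMap.finrank_range_of_inj L_inj]; simp

theorem f_mod (k : ℕ) (z : ℝ × ℝ) : f (k % 80) z = f k z := by simp [f, nx, ny]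

theorem flip (k : Fin 80) : ∃ k' : Fin 80, ∀ u : X, u.1 k' = -u.1 k := by
  refine ⟨⟨(k + 40) % 80, Nat.mod_lt _ (by norm_num)⟩, ?_⟩
  rintro ⟨_, z, rfl⟩
  change f ((k + 40) % 80) z = -f k z
  rw [f_mod]
  simp only [f, (sym k k.2).1, (sym k k.2).2]
  push_cast; ring

theorem le_norm (u : X) (k : Fin 80) : u.1 k ≤ ‖u‖ :=
  (le_abs_self _).trans (norm_le_pi_norm u.1 k)

theorem active {v : X} (hv : ‖v‖ = 1) {p : X →L[ℝ] ℝ} (hp : ‖p‖ = 1) (hpv : p v = 1) (w : X) :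
    ∃ k : Fin 80, v.1 k = 1 ∧ p w ≤ w.1 k := by
  by_contra hn
  push Not at hn
  have hev : ∀ᶠ t in 𝓝[>] (0 : ℝ), ∀ k : Fin 80, v.1 k + t * w.1 k < 1 + t * p w := by
    rw [eventually_all]
    intro k
    rcases (hv ▸ le_norm v k).lt_or_eq with h | h
    · refine eventually_nhdsWithin_of_eventually_nhds ?_
      exact ContinuousAt.eventually_lt (by fun_prop) (by fun_prop) (by simpa using h)
    · filter_upwards [self_mem_nhdsWithin] with t ht
      have := mul_lt_mul_of_pos_left (hn k h) ht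
      linarith
  obtain ⟨t, ht⟩ := hev.exists
  have h1 : p (v + t • w) ≤ ‖v + t • w‖ := by
    have := p.le_opNorm (v + t • w)
    rw [hp, one_mul] at this
    exact (le_abs_self _).trans this
  rw [map_add, map_smul, hpv, smul_eq_mul] at h1
  have h2 : ∀ k, (v + t • w).1 k < 1 + t * p w := fun k => ht k
  have h3 : 0 < 1 + t * p w := by
    obtain ⟨k', hk'⟩ := flip 0
    have a := h2 0
    have b := h2 k'
    rw [hk'] at b
    linarith
  have h4 : ‖(v + t • w).1‖ < 1 + t * p w := by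
    rw [pi_norm_lt_iff h3]
    intro k
    obtain ⟨k', hk'⟩ := flip k
    have b := h2 k'
    rw [hk'] at b
    rw [Real.norm_eq_abs, abs_lt]
    exact ⟨by linarith, h2 k⟩
  exact absurd h1 (not_le.2 h4)

theorem bound {x y : X} {p q : X →L[ℝ] ℝ} (hx : ‖x‖ = 1) (hy : ‖y‖ = 1)
    (hxy : ‖x - y‖ = 1224 / 1000) (hp : ‖p‖ = 1) (hq : ‖q‖ = 1) (hpx : p x = ‖x‖)
    (hqy : q y = ‖y‖) : (p - q) (x - y) ≤ 1495 / 1000 := by
  obtain ⟨k, k1, k2⟩ := active hx hp (hpx.trans hx) (x - y)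
  obtain ⟨l, l1, l2⟩ := active hy hq (hqy.trans hy) (-(x - y))
  have g : ∀ (u : X) (z : ℝ × ℝ), L z = u.1 → ∀ m, f m z ≤ ‖u‖ := fun u z h m => by
    have := le_norm u ⟨m % 80, Nat.mod_lt _ (by norm_num)⟩
    rw [← h, ← f_mod] at *
    exact this
  obtain ⟨z, hz⟩ := x.2
  obtain ⟨w, hw⟩ := y.2
  have hzw : L (z - w) = (x - y).1 := by rw [map_sub, hz, hw]; rfl
  have := key (hx ▸ g x z hz) (hy ▸ g y w hw) k.2 l.2 (by rw [← k1, ← hz]; rfl)
    (by rw [← l1, ← hw]; rfl) (hxy ▸ g (x - y) (z - w) hzw)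
  have e1 : (x - y).1 k = f k (z - w) := by rw [← hzw]; rfl
  have e2 : (-(x - y)).1 l = -f l (z - w) := by
    change -((x - y).1 l) = _
    rw [← hzw]; rfl
  rw [map_neg] at l2
  rw [_root_.sub_apply]
  linarith

theorem exists_pair : ∃ x y : X, ‖x‖ = 1 ∧ ‖y‖ = 1 ∧ ‖x - y‖ = 1224 / 1000 := by
  have hr : 1 < Module.rank ℝ X := by
    rw [← Module.finrank_eq_rank, finrank_X]; norm_num
  have hc := isConnected_sphere hr (0 : X) zero_le_one
  obtain ⟨x, hx⟩ := hc.nonempty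
  have hx' : -x ∈ Metric.sphere (0 : X) 1 := by simpa using hx
  have hx1 : ‖x‖ = 1 := by simpa using hx
  have := hc.isPreconnected.intermediate_value hx hx' (f := fun y => ‖x - y‖) (by fun_prop)
  obtain ⟨y, hy, h⟩ := this (show (1224 / 1000 : ℝ) ∈ Icc ‖x - x‖ ‖x - -x‖ by
    rw [sub_self, norm_zero, sub_neg_eq_add, ← two_smul ℝ x, norm_smul, hx1]; norm_num)
  exact ⟨x, y, hx1, by simpa using hy, h⟩

end Pool.Agent.H.MP_a1f11a_an
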